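import Mathlib
import Pool.Agent.Helper58_MOO.Stmts

/-!
Project MOO, module MLM (`MlmStmt`): the main lemma from the list of trees, the acceptance lemmas,
the generic accepted set and the stabilisation.
-/

open Cardinal
open Pool.Agent.Helper69_LOTS

namespace Pool.Agent.MOO.H29

open Node

theorem mlm (hL : LstStmt) (hA : AcbStmt) (hD : DkxStmt) (hS : StbStmt) : MlmStmt := by
  intro pfa T hT K
  obtain ⟨A, C, hAC⟩ := hL pfa T hT K
  have hacc := hA T K A C hT hAC
  by_cases hN : NoNull T K T
  · obtain ⟨X, hX, hXc, E, hE, hEC, h⟩ := hD pfa T K A C hT hAC hacc hN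
    obtain ⟨Y, hYX, hYc, hY⟩ := hS pfa T K A C hT hAC hacc X hX hXc E hE hEC h
    exact ⟨Y, hYX.trans hX, hYc, Or.inl hY⟩
  · unfold NoNull at hN
    push Not at hN
    obtain ⟨B, hB, hsub, hK⟩ := hN
    refine ⟨B, hB, ?_, Or.inr hK⟩
    intro hc
    choose s hs hsh using hsub.2.2
    have hinj : Function.Injective (fun δ : Om => (⟨s δ, hs δ⟩ : B)) := by
      intro a b hab
      have h1 : s a = s b := congrArg Subtype.val hab
      rw [← hsh a, ← hsh b, h1]
    have : Countable B := hc.to_subtype
    have h2 : Countable Om := hinj.countable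
    exact not_countable (α := Om) h2

end Pool.Agent.MOO.H29
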