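import Mathlib
import Pool.Agent.Helper58_MOO.Stmts

/-!
Project MOO, module REL (`RelStmt`): the theorem of Baumgartner from the generic embedding and the
reduction to condensation points.
-/

open Cardinal
open Pool.Agent.Helper69_LOTS

namespace Pool.Agent.MOO.H29

theorem rel (hR : RcdStmt) (hG : RegStmt) : RelStmt := by
  intro pfa X Y hX hY
  obtain ⟨y, hy, hyY, hy2⟩ := hR Y hY
  have hc : #Om = #X := by
    rw [hX, Cardinal.mk_toType, Cardinal.card_ord]
  obtain ⟨e⟩ := Cardinal.eq.mp hc
  have hx : Function.Injective (fun α : Om => ((e α : X) : ℝ)) :=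
    Subtype.val_injective.comp e.injective
  obtain ⟨f, hf⟩ := hG pfa (fun α : Om => ((e α : X) : ℝ)) y hx hy hy2
  refine ⟨OrderEmbedding.ofStrictMono (fun a : X => (⟨y (f (e.symm a)), hyY _⟩ : Y)) ?_⟩
  intro a b hab
  have h1 : ((e (e.symm a) : X) : ℝ) < ((e (e.symm b) : X) : ℝ) := by
    rw [Equiv.apply_symm_apply, Equiv.apply_symm_apply]
    exact hab
  exact hf _ _ h1

end Pool.Agent.MOO.H29
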